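import Pool.Agent.W367.KS.SFinal
set_option autoImplicit false

/-!
Let `K` be a number field containing the `n`-th roots of unity (`n ≥ 3`) and a unit `ε` of
infinite order, and let `m ≥ 2`. For large `N` the curve
`(1 - y ^ n) ∏_{k=1}^m (1 - x/ε^{kN}) = 1`, of genus `(m - 1) (n - 1)`, has `m (n - 1)` classes in
the integral part of its `K_2 ⊗ ℚ` whose regulators are linearly independent over the real numbers.
-/

namespace Pool.Agent.Results.MP_15b3df_nt.SuperellipticKTwo

open Pool.Agent.W367.KT Pool.Agent.W367.KS NumberField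

theorem result (K : Type) [Field K] [NumberField K] (ε : (𝓞 K)ˣ) (hε : ¬ IsOfFinOrder ε)
    (m n : ℕ) (hm : 2 ≤ m) (hn : 3 ≤ n) (ζ : K) (hζ : IsPrimitiveRoot ζ n) :
    ∀ᶠ N : ℕ in Filter.atTop,
      Squarefree (fpoly (au (toK ε) N) m * (fpoly (au (toK ε) N) m - 1)) ∧
      (fpoly (au (toK ε) N) m).natDegree = m ∧
      HasClasses (fpoly (au (toK ε) N) m) n (m * (n - 1)) := by
  filter_upwards [mainS ε hε hm (by omega) ζ hζ] with N hN
  exact ⟨hN.1, natDegree_fpoly _ _, hN.2⟩

end Pool.Agent.Results.MP_15b3df_nt.SuperellipticKTwo
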